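import Mathlib
import Pool.Agent.L5helper82.Hyp

/-!
# Convex-cyclic operators whose square is not convex-cyclic, on every separable Banach space

Every nonzero separable real or complex Banach space carries a convex-cyclic operator `S` such that no
even power of `S` (in particular not `S ^ 2`) is convex-cyclic.

The operator is a direct sum of the multiplication by a number `ω r` on a line, where `ω = -1` in the
real case, `ω = i` in the complex case and `r` is large, and of a hypercyclic operator on a closed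
hyperplane (in finite dimensions: of an operator of the same kind on a hyperplane). The line component
of the orbit grows faster than the other one and turns around, so that the components can be corrected
independently with small weights.
-/

set_option autoImplicit false

open Filter Topology

namespace Pool.Agent.Results.MP_8292e8_an.EverySeparableSpace

open Pool.Agent.L5helper82

/-- `T` is convex-cyclic: for some vector `x` the convex hull of the orbit
`{T ^ n x : n ≥ 0}` is dense. -/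
def ConvexCyclic {𝕜 X : Type} [RCLike 𝕜] [NormedAddCommGroup X] [NormedSpace ℝ X]
    [NormedSpace 𝕜 X] (T : X →L[𝕜] X) : Prop :=
  ∃ x : X, Dense (convexHull ℝ (Set.range fun n : ℕ => (T ^ n) x))

/-- the dual criterion -/
def CC {𝕜 X : Type} [RCLike 𝕜] [NormedAddCommGroup X] [NormedSpace 𝕜 X] (T : X →L[𝕜] X)
    (x : X) : Prop :=
  ∀ f : X →L[𝕜] 𝕜, f ≠ 0 → ∀ M : ℝ, ∃ n : ℕ, M < RCLike.re (f ((T ^ n) x))

lemma convexCyclic_of_CC {𝕜 X : Type} [RCLike 𝕜] [NormedAddCommGroup X] [NormedSpace ℝ X]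
    [NormedSpace 𝕜 X] [IsScalarTower ℝ 𝕜 X] {T : X →L[𝕜] X} {x : X} (h : CC T x) :
    ConvexCyclic T := by
  refine ⟨x, fun y => ?_⟩
  by_contra hy
  obtain ⟨f, u, h1, h2⟩ := RCLike.geometric_hahn_banach_closed_point (𝕜 := 𝕜)
    (convex_convexHull ℝ (Set.range fun n : ℕ => (T ^ n) x)).closure isClosed_closure hy
  have hf : f ≠ 0 := by
    rintro rfl
    have h3 := h1 _ (subset_closure (subset_convexHull ℝ _ ⟨0, rfl⟩))
    simp only [zero_apply, map_zero] at h2 h3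
    linarith
  obtain ⟨n, hn⟩ := h f hf u
  have h3 := h1 _ (subset_closure (subset_convexHull ℝ _ ⟨n, rfl⟩))
  simp only at h3
  linarith

/-- the rotation number -/
lemma exists_phase (𝕜 : Type) [RCLike 𝕜] : ∃ ω : 𝕜, ω ^ 4 = 1 ∧
    (ω ^ 2 = 1 ∨ (ω ^ 2 = -1 ∧ RCLike.re ω = 0)) ∧
    ∀ c : 𝕜, c ≠ 0 → ∃ k : ℕ, 0 < RCLike.re (ω ^ k * c) := by
  rcases RCLike.I_mul_I_ax (K := 𝕜) with hI | hI
  · refine ⟨-1, by norm_num, Or.inl (by norm_num), fun c hc => ?_⟩
    have him : c = ((RCLike.re c : ℝ) : 𝕜) := by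
      have := RCLike.re_add_im c
      rw [hI, mul_zero, add_zero] at this
      exact this.symm
    have hre : RCLike.re c ≠ 0 := by
      intro h
      rw [h] at him
      exact hc (by simpa using him)
    rcases lt_or_gt_of_ne hre with h | h
    · refine ⟨1, ?_⟩
      rw [pow_one, neg_one_mul, map_neg]
      linarith
    · exact ⟨0, by simpa using h⟩
  · refine ⟨RCLike.I, ?_, Or.inr ⟨?_, RCLike.I_re⟩, fun c hc => ?_⟩
    · have : (RCLike.I : 𝕜) ^ 4 = (RCLike.I * RCLike.I) * (RCLike.I * RCLike.I) := by ring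
      rw [this, hI]
      norm_num
    · rw [pow_two, hI]
    · have hI2 : (RCLike.I : 𝕜) ^ 2 = -1 := by rw [pow_two, hI]
      have hI3 : (RCLike.I : 𝕜) ^ 3 = -RCLike.I := by
        rw [pow_succ, hI2, neg_one_mul]
      by_cases hre : RCLike.re c = 0
      · have him : RCLike.im c ≠ 0 := by
          intro h
          apply hc
          have := RCLike.re_add_im c
          rw [hre, h] at this
          simpa using this.symm
        have e1 : RCLike.re (RCLike.I * c) = - RCLike.im c := RCLike.I_mul_re c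
        rcases lt_or_gt_of_ne him with h | h
        · refine ⟨1, ?_⟩
          rw [pow_one, e1]
          linarith
        · refine ⟨3, ?_⟩
          rw [hI3, neg_mul, map_neg, e1]
          linarith
      · rcases lt_or_gt_of_ne hre with h | h
        · refine ⟨2, ?_⟩
          rw [hI2, neg_one_mul, map_neg]
          linarith
        · exact ⟨0, by simpa using h⟩

section step

variable {𝕜 X : Type} [RCLike 𝕜] [NormedAddCommGroup X] [NormedSpace 𝕜 X]

/-- growth of the dominating term -/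
lemma unbounded {ω : 𝕜} (h4 : ω ^ 4 = 1)
    (hω : ∀ c : 𝕜, c ≠ 0 → ∃ k : ℕ, 0 < RCLike.re (ω ^ k * c)) {r ρ A : ℝ} (hr : 1 < r)
    (hρ : 0 ≤ ρ) (hρr : ρ < r) (c : 𝕜) (hc : c ≠ 0) (g : ℕ → 𝕜) (hg : ∀ n, ‖g n‖ ≤ A * ρ ^ n)
    (M : ℝ) : ∃ n : ℕ, M < RCLike.re ((ω * (r : 𝕜)) ^ n * c + g n) := by
  obtain ⟨k, hk⟩ := hω c hc
  set δ := RCLike.re (ω ^ k * c) with hδ
  have hr0 : 0 < r := by linarith
  have hA : 0 ≤ A := by
    have := (norm_nonneg _).trans (hg 0)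
    simpa using this
  have h1 : Tendsto (fun n : ℕ => (ρ / r) ^ n) atTop (𝓝 0) :=
    tendsto_pow_atTop_nhds_zero_of_lt_one (by positivity) (by rw [div_lt_one hr0]; exact hρr)
  have h2 : ∀ᶠ n : ℕ in atTop, A * (ρ / r) ^ n < δ / 2 := by
    have h3 := h1.const_mul A
    rw [mul_zero] at h3
    exact h3.eventually (gt_mem_nhds (half_pos hk))
  have h5 : ∀ᶠ n : ℕ in atTop, M < r ^ n * (δ / 2) := by
    have h6 : Tendsto (fun n : ℕ => r ^ n * (δ / 2)) atTop atTop :=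
      (tendsto_pow_atTop_atTop_of_one_lt hr).atTop_mul_const (half_pos hk)
    exact h6.eventually (eventually_gt_atTop M)
  have h7 : Tendsto (fun t : ℕ => 4 * t + k) atTop atTop :=
    tendsto_atTop_mono (fun t => by simp only [id]; omega) tendsto_id
  obtain ⟨t, ht1, ht2⟩ := ((h7.eventually h2).and (h7.eventually h5)).exists
  refine ⟨4 * t + k, ?_⟩
  set n := 4 * t + k with hn
  have e1 : ω ^ n = ω ^ k := by
    rw [hn, pow_add, pow_mul, h4, one_pow, one_mul]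
  have e2 : (ω * (r : 𝕜)) ^ n * c = ((r ^ n : ℝ) : 𝕜) * (ω ^ k * c) := by
    rw [mul_pow, e1]
    push_cast
    ring
  have e3 : RCLike.re ((ω * (r : 𝕜)) ^ n * c) = r ^ n * δ := by
    rw [e2, RCLike.re_ofReal_mul]
  have e4 : -(A * ρ ^ n) ≤ RCLike.re (g n) := by
    have h8 := RCLike.abs_re_le_norm (g n)
    have h9 := abs_le.1 (h8.trans (hg n))
    exact h9.1
  rw [map_add, e3]
  have e5 : A * ρ ^ n = r ^ n * (A * (ρ / r) ^ n) := by
    rw [div_pow]
    field_simp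
  have hrn : 0 < r ^ n := by positivity
  have e6 : A * ρ ^ n < r ^ n * (δ / 2) := by
    rw [e5]
    exact mul_lt_mul_of_pos_left ht1 hrn
  nlinarith

/-- The main step: adding a one-dimensional summand. -/
lemma step {ω : 𝕜} (h4 : ω ^ 4 = 1)
    (hω : ∀ c : 𝕜, c ≠ 0 → ∃ k : ℕ, 0 < RCLike.re (ω ^ k * c)) (e₀ : X) (f₀ : X →L[𝕜] 𝕜)
    (hef : f₀ e₀ = 1) (T : LinearMap.ker (f₀ : X →ₗ[𝕜] 𝕜) →L[𝕜] LinearMap.ker (f₀ : X →ₗ[𝕜] 𝕜))
    (z : LinearMap.ker (f₀ : X →ₗ[𝕜] 𝕜)) (hz : CC T z) :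
    ∃ (S : X →L[𝕜] X) (x : X) (r : ℝ), CC S x ∧
      ∀ (n : ℕ) (y : X), f₀ ((S ^ n) y) = (ω * (r : 𝕜)) ^ n * f₀ y := by
  let Z := LinearMap.ker (f₀ : X →ₗ[𝕜] 𝕜)
  have hproj : ∀ y : X, (ContinuousLinearMap.id 𝕜 X - f₀.smulRight e₀) y ∈ Z := by
    intro y
    show f₀ (y - f₀ y • e₀) = 0
    rw [map_sub, map_smul, hef, smul_eq_mul, mul_one, sub_self]
  let p : X →L[𝕜] Z := (ContinuousLinearMap.id 𝕜 X - f₀.smulRight e₀).codRestrict Z hproj
  have hp : ∀ y, ((p y : Z) : X) = y - f₀ y • e₀ := fun y => rfl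
  set r : ℝ := ‖T‖ + 2 with hr
  have hTn : 0 ≤ ‖T‖ := norm_nonneg T
  let S : X →L[𝕜] X := f₀.smulRight ((ω * (r : 𝕜)) • e₀) + Z.subtypeL ∘L T ∘L p
  have hS : ∀ y, S y = f₀ y • ((ω * (r : 𝕜)) • e₀) + ((T (p y) : Z) : X) := fun y => rfl
  have hf : ∀ v : Z, f₀ (v : X) = 0 := fun v => v.2
  have hf₀S : ∀ y, f₀ (S y) = (ω * (r : 𝕜)) * f₀ y := by
    intro y
    rw [hS, map_add, map_smul, map_smul, hef, hf, smul_eq_mul, smul_eq_mul]
    ring
  have hpow : ∀ (n : ℕ) (y : X), f₀ ((S ^ n) y) = (ω * (r : 𝕜)) ^ n * f₀ y := by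
    intro n
    induction n with
    | zero => intro y; simp
    | succ n ih =>
      intro y
      rw [pow_succ', mul_apply_eq_comp, hf₀S, ih, pow_succ]
      ring
  have horb : ∀ n : ℕ, (S ^ n) (e₀ + (z : X)) = (ω * (r : 𝕜)) ^ n • e₀ + (((T ^ n) z : Z) : X) := by
    intro n
    induction n with
    | zero => simp
    | succ n ih =>
      rw [pow_succ', mul_apply_eq_comp, ih, hS]
      have e1 : f₀ ((ω * (r : 𝕜)) ^ n • e₀ + (((T ^ n) z : Z) : X)) = (ω * (r : 𝕜)) ^ n := by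
        rw [map_add, map_smul, hef, hf, add_zero, smul_eq_mul, mul_one]
      have e2 : p ((ω * (r : 𝕜)) ^ n • e₀ + (((T ^ n) z : Z) : X)) = (T ^ n) z := by
        apply Subtype.ext
        rw [hp, e1]
        abel
      rw [e1, e2, smul_smul, ← pow_succ, pow_succ' T, mul_apply_eq_comp]
  refine ⟨S, e₀ + (z : X), r, ?_, hpow⟩
  intro f hf0 M
  by_cases hfe : f e₀ = 0
  · have hfZ : f.comp Z.subtypeL ≠ 0 := by
      intro h
      apply hf0
      ext y
      have h1 : f (p y : X) = 0 := DFunLike.congr_fun h (p y)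
      rw [hp, map_sub, map_smul, hfe, smul_zero, sub_zero] at h1
      simpa using h1
    obtain ⟨n, hn⟩ := hz (f.comp Z.subtypeL) hfZ M
    refine ⟨n, ?_⟩
    rw [horb, map_add, map_smul, hfe, smul_zero, zero_add]
    exact hn
  · have hg : ∀ n, ‖f (((T ^ n) z : Z) : X)‖ ≤ (‖f‖ * ‖z‖) * (‖T‖ + 1) ^ n := by
      intro n
      have h1 : ‖(((T ^ n) z : Z) : X)‖ ≤ (‖T‖ + 1) ^ n * ‖z‖ := by
        have h2 : ‖(T ^ n) z‖ ≤ ‖T‖ ^ n * ‖z‖ := by
          induction n with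
          | zero => simp
          | succ n ih =>
            rw [pow_succ', mul_apply_eq_comp, pow_succ']
            calc ‖T ((T ^ n) z)‖ ≤ ‖T‖ * ‖(T ^ n) z‖ := T.le_opNorm _
              _ ≤ ‖T‖ * (‖T‖ ^ n * ‖z‖) := by gcongr
              _ = ‖T‖ * ‖T‖ ^ n * ‖z‖ := by ring
        refine h2.trans ?_
        gcongr
        linarith
      calc ‖f (((T ^ n) z : Z) : X)‖ ≤ ‖f‖ * ‖(((T ^ n) z : Z) : X)‖ := f.le_opNorm _
        _ ≤ ‖f‖ * ((‖T‖ + 1) ^ n * ‖z‖) := by gcongr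
        _ = (‖f‖ * ‖z‖) * (‖T‖ + 1) ^ n := by ring
    obtain ⟨n, hn⟩ := unbounded h4 hω (r := r) (ρ := ‖T‖ + 1) (A := ‖f‖ * ‖z‖) (by linarith)
      (by linarith) (by linarith) (f e₀) hfe (fun n => f (((T ^ n) z : Z) : X)) hg M
    refine ⟨n, ?_⟩
    rw [horb, map_add, map_smul, smul_eq_mul]
    exact hn

end step

/-- A pair of a vector and a functional. -/
lemma exists_pair (𝕜 X : Type) [RCLike 𝕜] [NormedAddCommGroup X] [NormedSpace 𝕜 X]
    [Nontrivial X] : ∃ (e₀ : X) (f₀ : X →L[𝕜] 𝕜), f₀ e₀ = 1 := by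
  obtain ⟨e, he⟩ := exists_ne (0 : X)
  obtain ⟨f, -, hf⟩ := exists_dual_vector 𝕜 e (norm_ne_zero_iff.2 he)
  refine ⟨((‖e‖ : ℝ) : 𝕜)⁻¹ • e, f, ?_⟩
  have h1 : ((‖e‖ : ℝ) : 𝕜) ≠ 0 := by exact_mod_cast norm_ne_zero_iff.2 he
  rw [map_smul, hf, smul_eq_mul, inv_mul_cancel₀ h1]

/-- Finite-dimensional spaces. -/
lemma finite_case (𝕜 : Type) [RCLike 𝕜] {ω : 𝕜} (h4 : ω ^ 4 = 1)
    (hω : ∀ c : 𝕜, c ≠ 0 → ∃ k : ℕ, 0 < RCLike.re (ω ^ k * c)) (n : ℕ) :
    ∀ (X : Type) [NormedAddCommGroup X] [NormedSpace 𝕜 X] [FiniteDimensional 𝕜 X],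
      Module.finrank 𝕜 X = n → ∃ (T : X →L[𝕜] X) (x : X), CC T x := by
  induction n with
  | zero =>
    intro X _ _ _ hn
    refine ⟨0, 0, fun f hf => (hf ?_).elim⟩
    have := Module.finrank_zero_iff.1 hn
    ext x
    rw [Subsingleton.elim x 0, map_zero, map_zero]
  | succ n ih =>
    intro X _ _ _ hn
    have : Nontrivial X := Module.nontrivial_of_finrank_pos (R := 𝕜) (by omega)
    obtain ⟨e₀, f₀, hef⟩ := exists_pair 𝕜 X
    have hk : Module.finrank 𝕜 (LinearMap.ker (f₀ : X →ₗ[𝕜] 𝕜)) = n := by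
      have h1 := LinearMap.finrank_range_add_finrank_ker (f₀ : X →ₗ[𝕜] 𝕜)
      have h2 : LinearMap.range (f₀ : X →ₗ[𝕜] 𝕜) = ⊤ := by
        rw [LinearMap.range_eq_top]
        intro c
        refine ⟨c • e₀, ?_⟩
        rw [map_smul]
        show c • f₀ e₀ = c
        rw [hef, smul_eq_mul, mul_one]
      rw [h2, finrank_top, Module.finrank_self] at h1
      omega
    obtain ⟨T, z, hz⟩ := ih (LinearMap.ker (f₀ : X →ₗ[𝕜] 𝕜)) hk
    obtain ⟨S, x, -, hS, -⟩ := step h4 hω e₀ f₀ hef T z hz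
    exact ⟨S, x, hS⟩

/-- A vector with dense orbit satisfies the dual criterion. -/
lemma CC_of_dense {𝕜 X : Type} [RCLike 𝕜] [NormedAddCommGroup X] [NormedSpace 𝕜 X]
    {T : X →L[𝕜] X} {x : X} (h : Dense (Set.range fun n : ℕ => (T ^ n) x)) : CC T x := by
  intro f hf M
  obtain ⟨y, hy⟩ : ∃ y, f y ≠ 0 := by
    by_contra hcon
    push Not at hcon
    exact hf (ContinuousLinearMap.ext hcon)
  have hopen : IsOpen {v : X | M < RCLike.re (f v)} :=
    isOpen_lt continuous_const (RCLike.continuous_re.comp f.continuous)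
  have hne : {v : X | M < RCLike.re (f v)}.Nonempty := by
    refine ⟨(((M + 1 : ℝ) : 𝕜) * (f y)⁻¹) • y, ?_⟩
    show M < RCLike.re (f _)
    rw [map_smul, smul_eq_mul, mul_assoc, inv_mul_cancel₀ hy, mul_one, RCLike.ofReal_re]
    linarith
  obtain ⟨_, h1, n, rfl⟩ := h.inter_open_nonempty _ hopen hne
  exact ⟨n, h1⟩

/-- **Main theorem.** Every nonzero separable Banach space `X` over `𝕜 = ℝ` or `ℂ` carries a
convex-cyclic operator `S` none of whose even powers `S ^ 2, S ^ 4, ...` is convex-cyclic. -/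
theorem result (𝕜 X : Type) [RCLike 𝕜] [NormedAddCommGroup X] [NormedSpace ℝ X]
    [NormedSpace 𝕜 X] [IsScalarTower ℝ 𝕜 X] [CompleteSpace X]
    [TopologicalSpace.SeparableSpace X] [Nontrivial X] :
    ∃ S : X →L[𝕜] X, ConvexCyclic S ∧ ∀ k : ℕ, 1 ≤ k → ¬ ConvexCyclic (S ^ (2 * k)) := by
  obtain ⟨ω, h4, h2, hω⟩ := exists_phase 𝕜
  obtain ⟨e₀, f₀, hef⟩ := exists_pair 𝕜 X
  have hf₀ : f₀ ≠ 0 := by
    rintro rfl
    simp at hef
  have hcl : IsClosed ((LinearMap.ker (f₀ : X →ₗ[𝕜] 𝕜) : Submodule 𝕜 X) : Set X) :=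
    f₀.isClosed_ker
  have hcomp : CompleteSpace (LinearMap.ker (f₀ : X →ₗ[𝕜] 𝕜)) := hcl.completeSpace_coe
  obtain ⟨T, z, hz⟩ : ∃ (T : LinearMap.ker (f₀ : X →ₗ[𝕜] 𝕜) →L[𝕜]
      LinearMap.ker (f₀ : X →ₗ[𝕜] 𝕜)) (z : LinearMap.ker (f₀ : X →ₗ[𝕜] 𝕜)), CC T z := by
    by_cases hfin : FiniteDimensional 𝕜 (LinearMap.ker (f₀ : X →ₗ[𝕜] 𝕜))
    · exact finite_case 𝕜 h4 hω _ _ rfl
    · have hsep : TopologicalSpace.SeparableSpace (LinearMap.ker (f₀ : X →ₗ[𝕜] 𝕜)) := by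
        have := UniformSpace.secondCountable_of_separable X
        infer_instance
      obtain ⟨T, z, hT⟩ := exists_hc 𝕜 (LinearMap.ker (f₀ : X →ₗ[𝕜] 𝕜)) hfin
      exact ⟨T, z, CC_of_dense hT⟩
  obtain ⟨S, x, r, hS, hpow⟩ := step h4 hω e₀ f₀ hef T z hz
  refine ⟨S, convexCyclic_of_CC hS, fun k hk => ?_⟩
  rintro ⟨y, hy⟩
  -- a functional which is nonpositive on the orbit
  obtain ⟨g, hg, hle⟩ : ∃ g : X →L[𝕜] 𝕜, g ≠ 0 ∧
      ∀ m : ℕ, RCLike.re (g (((S ^ (2 * k)) ^ m) y)) ≤ 0 := by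
    have horb : ∀ m : ℕ, f₀ (((S ^ (2 * k)) ^ m) y) =
        (ω ^ 2) ^ (k * m) * ((r ^ (2 * k * m) : ℝ) : 𝕜) * f₀ y := by
      intro m
      rw [← pow_mul, hpow, mul_pow, ← pow_mul, show 2 * (k * m) = 2 * k * m by ring]
      push_cast
      ring
    have hrn : ∀ m : ℕ, 0 ≤ r ^ (2 * k * m) := by
      intro m
      rw [mul_assoc, pow_mul]
      positivity
    by_cases hy0 : f₀ y = 0
    · refine ⟨f₀, hf₀, fun m => ?_⟩
      rw [horb, hy0, mul_zero, map_zero]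
    have hstar : star (f₀ y) ≠ 0 := by
      intro h
      exact hy0 (star_eq_zero.1 h)
    have hns : star (f₀ y) * f₀ y = ((‖f₀ y‖ ^ 2 : ℝ) : 𝕜) := by
      have h := RCLike.conj_mul (f₀ y)
      rw [starRingEnd_apply] at h
      rw [h]
      push_cast
      rfl
    rcases h2 with h2 | ⟨h2, h3⟩
    · refine ⟨(-star (f₀ y)) • f₀, smul_ne_zero (neg_ne_zero.2 hstar) hf₀, fun m => ?_⟩
      have e1 : ((-star (f₀ y)) • f₀) (((S ^ (2 * k)) ^ m) y) =
          ((-(r ^ (2 * k * m) * ‖f₀ y‖ ^ 2) : ℝ) : 𝕜) := by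
        rw [smul_apply, horb, h2, one_pow, one_mul, smul_eq_mul]
        have : -star (f₀ y) * (((r ^ (2 * k * m) : ℝ) : 𝕜) * f₀ y) =
            -(((r ^ (2 * k * m) : ℝ) : 𝕜) * (star (f₀ y) * f₀ y)) := by ring
        rw [this, hns]
        push_cast
        ring
      rw [e1, RCLike.ofReal_re]
      have := hrn m
      have := mul_nonneg this (sq_nonneg ‖f₀ y‖)
      linarith
    · have hω0 : ω ≠ 0 := by
        rintro rfl
        norm_num at h4
      refine ⟨(ω * star (f₀ y)) • f₀, smul_ne_zero (mul_ne_zero hω0 hstar) hf₀, fun m => ?_⟩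
      have e1 : ((ω * star (f₀ y)) • f₀) (((S ^ (2 * k)) ^ m) y) =
          (((-1) ^ (k * m) * r ^ (2 * k * m) * ‖f₀ y‖ ^ 2 : ℝ) : 𝕜) * ω := by
        rw [smul_apply, horb, h2, smul_eq_mul]
        have : ω * star (f₀ y) * ((-1) ^ (k * m) * ((r ^ (2 * k * m) : ℝ) : 𝕜) * f₀ y) =
            (-1) ^ (k * m) * ((r ^ (2 * k * m) : ℝ) : 𝕜) * (star (f₀ y) * f₀ y) * ω := by ring
        rw [this, hns]
        push_cast
        ring
      rw [e1, RCLike.re_ofReal_mul, h3, mul_zero]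
  -- the closed half-space
  have hclosed : IsClosed {v : X | RCLike.re (g v) ≤ 0} :=
    isClosed_le (RCLike.continuous_re.comp g.continuous) continuous_const
  have hconv : Convex ℝ {v : X | RCLike.re (g v) ≤ 0} := by
    intro v hv w hw a b ha hb _
    show RCLike.re (g (a • v + b • w)) ≤ 0
    have e1 : ∀ (t : ℝ) (u : X), g (t • u) = (t : 𝕜) * g u := by
      intro t u
      have : t • u = (t : 𝕜) • u := by
        rw [RCLike.real_smul_eq_coe_smul (K := 𝕜)]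
      rw [this, map_smul, smul_eq_mul]
    rw [map_add, e1, e1, map_add, RCLike.re_ofReal_mul, RCLike.re_ofReal_mul]
    have h5 : RCLike.re (g v) ≤ 0 := hv
    have h6 : RCLike.re (g w) ≤ 0 := hw
    nlinarith
  have hsub : convexHull ℝ (Set.range fun m : ℕ => ((S ^ (2 * k)) ^ m) y) ⊆
      {v : X | RCLike.re (g v) ≤ 0} := by
    refine convexHull_min ?_ hconv
    rintro _ ⟨m, rfl⟩
    exact hle m
  have hall : ∀ v : X, RCLike.re (g v) ≤ 0 := fun v => closure_minimal hsub hclosed (hy v)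
  apply hg
  ext v
  by_contra hv
  have h7 := hall ((g v)⁻¹ • v)
  rw [map_smul, smul_eq_mul, inv_mul_cancel₀ hv, RCLike.one_re] at h7
  linarith

end Pool.Agent.Results.MP_8292e8_an.EverySeparableSpace
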